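import Pool.Agent.H72.EQQ.Targets2

/-!
Equidistribution of admissible tuples with a power saving (`MP_7ecdd4_nt`): row DFR, the distribution
function of `height / rad ^ (1 / n)`.
-/

set_option autoImplicit false

open Pool.Agent.H38.AE.Statement Pool.Agent.H38.AT MeasureTheory Filter
open Pool.Agent.H71.EQ

namespace Pool.Agent.H30.EQQ

/-- the cut-off function -/
noncomputable def phi {k : ℕ} (a s : ℝ) (y : Fin (k + 1) → ℝ) : ℝ :=
  max 0 (min 1 ((a - ‖y‖) / s))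

lemma phi_nonneg {k : ℕ} (a s : ℝ) (y : Fin (k + 1) → ℝ) : 0 ≤ phi a s y := le_max_left _ _

lemma phi_le_one {k : ℕ} (a s : ℝ) (y : Fin (k + 1) → ℝ) : phi a s y ≤ 1 :=
  max_le zero_le_one (min_le_left _ _)

lemma phi_abs {k : ℕ} (a s : ℝ) (y : Fin (k + 1) → ℝ) : |phi a s y| ≤ 1 := by
  rw [abs_of_nonneg (phi_nonneg a s y)]
  exact phi_le_one a s y

lemma phi_eq_one {k : ℕ} {a s : ℝ} (hs : 0 < s) {y : Fin (k + 1) → ℝ} (h : ‖y‖ ≤ a - s) :
    phi a s y = 1 := by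
  unfold phi
  have h1 : 1 ≤ (a - ‖y‖) / s := by
    rw [le_div_iff₀ hs]
    linarith
  rw [min_eq_left h1]
  exact max_eq_right zero_le_one

lemma phi_eq_zero {k : ℕ} {a s : ℝ} (hs : 0 < s) {y : Fin (k + 1) → ℝ} (h : a ≤ ‖y‖) :
    phi a s y = 0 := by
  unfold phi
  have h1 : (a - ‖y‖) / s ≤ 0 := div_nonpos_of_nonpos_of_nonneg (by linarith) hs.le
  exact max_eq_left ((min_le_right _ _).trans h1)

lemma phi_lip {k : ℕ} {a s : ℝ} (hs : 0 < s) (y z : Fin (k + 1) → ℝ) :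
    |phi a s y - phi a s z| ≤ s⁻¹ * ‖y - z‖ := by
  unfold phi
  refine (abs_max_sub_max_le_max _ _ _ _).trans ?_
  rw [sub_self, abs_zero]
  refine max_le (by positivity) ?_
  refine (abs_min_sub_min_le_max _ _ _ _).trans ?_
  rw [sub_self, abs_zero]
  refine max_le (by positivity) ?_
  have h1 : (a - ‖y‖) / s - (a - ‖z‖) / s = s⁻¹ * (‖z‖ - ‖y‖) := by
    field_simp
    ring
  rw [h1, abs_mul, abs_of_pos (inv_pos.2 hs)]
  refine mul_le_mul_of_nonneg_left ?_ (inv_pos.2 hs).le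
  rw [abs_sub_comm]
  exact abs_norm_sub_norm_le y z

lemma phi_cont {k : ℕ} (a s : ℝ) : Continuous (phi (k := k) a s) := by
  unfold phi
  exact continuous_const.max (continuous_const.min ((continuous_const.sub continuous_norm).div_const s))

lemma rd_pos {n : ℕ} (x : Fin n → ℤ) : 0 < rd x := by
  unfold rd radical
  exact Finset.prod_pos fun p hp => (Nat.prime_of_mem_primeFactors hp).pos

lemma height_le_iff {n : ℕ} (x : Fin n → ℤ) {c : ℝ} (hc : 0 ≤ c) :
    (height x : ℝ) ≤ c ↔ ∀ i, |(x i : ℝ)| ≤ c := by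
  rw [← Nat.le_floor_iff hc]
  unfold height
  rw [Finset.sup_le_iff]
  constructor
  · intro h i
    have h1 := h i (Finset.mem_univ i)
    rw [Nat.le_floor_iff hc, Nat.cast_natAbs, Int.cast_abs] at h1
    exact h1
  · intro h i _
    rw [Nat.le_floor_iff hc, Nat.cast_natAbs, Int.cast_abs]
    exact h i

lemma height_nrm {k : ℕ} (x : Fin (k + 1) → ℤ) (t : ℝ) :
    (height x : ℝ) ≤ t * (rd x : ℝ) ^ nu k ↔ ‖nrm x‖ ≤ t := by
  have h0 : (0 : ℝ) < (rd x : ℝ) ^ nu k :=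
    Real.rpow_pos_of_pos (by exact_mod_cast rd_pos x) _
  rcases lt_or_ge t 0 with ht | ht
  · constructor
    · intro h
      have h1 : t * (rd x : ℝ) ^ nu k < 0 := mul_neg_of_neg_of_pos ht h0
      have h2 : (0 : ℝ) ≤ height x := Nat.cast_nonneg _
      linarith
    · intro h
      have := norm_nonneg (nrm x)
      linarith
  · rw [height_le_iff x (mul_nonneg ht h0.le), pi_norm_le_iff_of_nonneg ht]
    refine forall_congr' fun i => ?_
    unfold nrm
    rw [Real.norm_eq_abs, abs_div, abs_of_pos h0, div_le_iff₀ h0]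

lemma int_le {k : ℕ} (μ : Measure (Fin (k + 1) → ℝ)) [IsFiniteMeasure μ]
    {f : (Fin (k + 1) → ℝ) → ℝ} (hf : Continuous f) (hb : ∀ y, |f y| ≤ 1)
    {S : Set (Fin (k + 1) → ℝ)} (hS : MeasurableSet S) :
    ((∀ y, f y ≤ S.indicator 1 y) → ∫ y, f y ∂μ ≤ μ.real S) ∧
      ((∀ y, S.indicator 1 y ≤ f y) → μ.real S ≤ ∫ y, f y ∂μ) := by
  have hi : Integrable f μ :=
    Integrable.of_bound hf.aestronglyMeasurable 1 (Eventually.of_forall fun y => by
      rw [Real.norm_eq_abs]; exact hb y)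
  have hj : Integrable (S.indicator (1 : (Fin (k + 1) → ℝ) → ℝ)) μ :=
    (integrable_indicator_iff hS).2 (integrable_const (1 : ℝ)).integrableOn
  constructor
  · intro h
    rw [← integral_indicator_one hS]
    exact integral_mono hi hj h
  · intro h
    rw [← integral_indicator_one hS]
    exact integral_mono hj hi h

theorem pf_DFR (h1 : Pool.Agent.H72.EQQ.T_MUH) (h4 : T_MEA) : Pool.Agent.H72.EQQ.T_DFR := by
  intro k ε ρ δ C hk hδ hC hL
  obtain ⟨c, C1, hc, hC1, hM⟩ := h1 k hk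
  obtain ⟨hfin, -, -, hint⟩ := h4 k hk
  have := hfin
  set μ := limitMeasure k with hμ
  refine ⟨min (δ / 2) (δ / 2 * c), 2 * C + C1, lt_min (by positivity) (by positivity),
    by positivity, ?_⟩
  intro X t hX
  have hX1 : (1 : ℝ) ≤ X := by linarith
  have hX0 : (0 : ℝ) < X := by linarith
  obtain ⟨hT, hE⟩ := hL X hX
  set s : ℝ := X ^ (-(δ / 2)) with hs
  have hs0 : 0 < s := Real.rpow_pos_of_pos hX0 _
  have hs1 : s ≤ 1 := Real.rpow_le_one_of_one_le_of_nonpos hX1 (by linarith)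
  set P : ℝ := X ^ (-(1 - nu k)) with hP
  have hP0 : 0 ≤ P := Real.rpow_nonneg hX0.le _
  -- the error term
  have herr : C * (1 + s⁻¹) * X ^ (-δ) ≤ 2 * C * X ^ (-min (δ / 2) (δ / 2 * c)) := by
    have e1 : s⁻¹ = X ^ (δ / 2) := by
      rw [hs, Real.rpow_neg hX0.le, inv_inv]
    have e2 : (1 : ℝ) ≤ X ^ (δ / 2) := Real.one_le_rpow hX1 (by positivity)
    have e3 : X ^ (δ / 2) * X ^ (-δ) = X ^ (-(δ / 2)) := by
      rw [← Real.rpow_add hX0]
      congr 1
      ring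
    have e4 : X ^ (-(δ / 2)) ≤ X ^ (-min (δ / 2) (δ / 2 * c)) :=
      Real.rpow_le_rpow_of_exponent_le hX1 (neg_le_neg (min_le_left _ _))
    have e5 : 0 ≤ X ^ (-δ) := Real.rpow_nonneg hX0.le _
    calc C * (1 + s⁻¹) * X ^ (-δ) ≤ C * (2 * X ^ (δ / 2)) * X ^ (-δ) := by
          rw [e1]
          refine mul_le_mul_of_nonneg_right ?_ e5
          refine mul_le_mul_of_nonneg_left ?_ hC.le
          linarith
      _ = 2 * C * (X ^ (δ / 2) * X ^ (-δ)) := by ring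
      _ = 2 * C * X ^ (-(δ / 2)) := by rw [e3]
      _ ≤ _ := mul_le_mul_of_nonneg_left e4 (by positivity)
  have herr2 : C1 * s ^ c ≤ C1 * X ^ (-min (δ / 2) (δ / 2 * c)) := by
    refine mul_le_mul_of_nonneg_left ?_ hC1.le
    rw [hs, ← Real.rpow_mul hX0.le]
    refine Real.rpow_le_rpow_of_exponent_le hX1 ?_
    rw [neg_mul]
    exact neg_le_neg (min_le_right _ _)
  -- the sums
  classical
  set A : Set (Fin (k + 1) → ℤ) :=
    {x | x ∈ Tuples k ε ρ X ∧ (height x : ℝ) ≤ t * (rd x : ℝ) ^ nu k} with hA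
  have hAf : A = ((hT.toFinset.filter fun x => ‖nrm x‖ ≤ t : Finset (Fin (k + 1) → ℤ)) :
      Set (Fin (k + 1) → ℤ)) := by
    ext x
    rw [hA, Finset.coe_filter]
    constructor
    · rintro ⟨h5, h6⟩
      exact ⟨hT.mem_toFinset.2 h5, (height_nrm x t).1 h6⟩
    · rintro ⟨h5, h6⟩
      exact ⟨hT.mem_toFinset.1 h5, (height_nrm x t).2 h6⟩
  have hcard : (A.ncard : ℝ) = ∑ x ∈ hT.toFinset, if ‖nrm x‖ ≤ t then (1 : ℝ) else 0 := by
    rw [hAf, Set.ncard_coe_finset, Finset.sum_ite, Finset.sum_const_zero, add_zero,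
      Finset.sum_const, nsmul_eq_mul, mul_one]
  have hsum : ∀ f : (Fin (k + 1) → ℝ) → ℝ,
      ∑ᶠ x ∈ Tuples k ε ρ X, f (nrm x) = ∑ x ∈ hT.toFinset, f (nrm x) := fun f =>
    finsum_mem_eq_finite_toFinset_sum _ hT
  -- upper bound
  have hE1 := hE (phi (t + s) s) 1 s⁻¹ (phi_abs _ _) (phi_lip hs0)
  have hE2 := hE (phi t s) 1 s⁻¹ (phi_abs _ _) (phi_lip hs0)
  rw [hsum, ← hint _ (phi_cont _ _) ⟨1, phi_abs _ _⟩] at hE1 hE2
  have hu1 : (A.ncard : ℝ) ≤ ∑ x ∈ hT.toFinset, phi (t + s) s (nrm x) := by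
    rw [hcard]
    refine Finset.sum_le_sum fun x _ => ?_
    split_ifs with h5
    · rw [phi_eq_one hs0 (by linarith)]
    · exact phi_nonneg _ _ _
  have hl1 : ∑ x ∈ hT.toFinset, phi t s (nrm x) ≤ (A.ncard : ℝ) := by
    rw [hcard]
    refine Finset.sum_le_sum fun x _ => ?_
    split_ifs with h5
    · exact phi_le_one _ _ _
    · rw [phi_eq_zero hs0 (by linarith [not_le.1 h5])]
  have hmeas : ∀ a : ℝ, MeasurableSet {y : Fin (k + 1) → ℝ | ‖y‖ ≤ a} := fun a =>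
    (isClosed_le continuous_norm continuous_const).measurableSet
  have hmeas2 : ∀ a b : ℝ, MeasurableSet {y : Fin (k + 1) → ℝ | a < ‖y‖ ∧ ‖y‖ ≤ b} := fun a b =>
    (isOpen_lt continuous_const continuous_norm).measurableSet.inter (hmeas b)
  -- the measure of a ball of radius `a + s` against that of radius `a`
  have hball : ∀ a : ℝ, μ.real {y : Fin (k + 1) → ℝ | ‖y‖ ≤ a + s} ≤
      μ.real {y : Fin (k + 1) → ℝ | ‖y‖ ≤ a} + C1 * s ^ c := by
    intro a
    have e1 : {y : Fin (k + 1) → ℝ | ‖y‖ ≤ a + s} ⊆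
        {y : Fin (k + 1) → ℝ | ‖y‖ ≤ a} ∪ {y : Fin (k + 1) → ℝ | a < ‖y‖ ∧ ‖y‖ ≤ a + s} := by
      intro y hy
      rcases le_or_gt ‖y‖ a with h5 | h5
      · exact Or.inl h5
      · exact Or.inr ⟨h5, hy⟩
    refine (measureReal_mono e1).trans ((measureReal_union_le _ _).trans ?_)
    exact add_le_add le_rfl (hM a s hs0 hs1)
  have hu2 : ∫ y, phi (t + s) s y ∂μ ≤ μ.real {y : Fin (k + 1) → ℝ | ‖y‖ ≤ t + s} := by
    refine (int_le μ (phi_cont _ _) (phi_abs _ _) (hmeas (t + s))).1 fun y => ?_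
    by_cases h5 : ‖y‖ ≤ t + s
    · rw [Set.indicator_of_mem (by exact h5)]
      exact phi_le_one _ _ _
    · rw [Set.indicator_of_notMem (by exact h5), phi_eq_zero hs0 (by linarith [not_le.1 h5])]
  have hl2 : μ.real {y : Fin (k + 1) → ℝ | ‖y‖ ≤ t - s} ≤ ∫ y, phi t s y ∂μ := by
    refine (int_le μ (phi_cont _ _) (phi_abs _ _) (hmeas (t - s))).2 fun y => ?_
    by_cases h5 : ‖y‖ ≤ t - s
    · rw [Set.indicator_of_mem (by exact h5), phi_eq_one hs0 h5]
      rfl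
    · rw [Set.indicator_of_notMem (by exact h5)]
      exact phi_nonneg _ _ _
  have hb1 := hball t
  have hb2 := hball (t - s)
  rw [sub_add_cancel] at hb2
  have hU := mul_le_mul_of_nonneg_left hu1 hP0
  have hV := mul_le_mul_of_nonneg_left hl1 hP0
  have g1 := abs_le.1 hE1
  have g2 := abs_le.1 hE2
  rw [abs_le]
  constructor
  · linarith [g2.1]
  · linarith [g1.2]

end Pool.Agent.H30.EQQ
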