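import Pool.Agent.H72.EQQ.Targets3
import Pool.Agent.H17.EQQ.MUHA

/-!
Equidistribution of admissible tuples with a power saving (`MP_7ecdd4_nt`): row LWN, the norm is at
least `1`.
-/

set_option autoImplicit false

open MeasureTheory Filter
open Pool.Agent.H71.EQ
open Pool.Agent.H82.EQ (pz hz)

namespace Pool.Agent.H30.EQQ

lemma pr_le_pow {k : ℕ} (z : Fin k → ℝ) : PR z ≤ ‖extR z‖ ^ (k + 1) := by
  unfold PR
  rw [Finset.abs_prod]
  calc ∏ i, |extR z i| ≤ ∏ _i : Fin (k + 1), ‖extR z‖ :=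
        Finset.prod_le_prod (fun i _ => abs_nonneg _) fun i _ => norm_le_pi_norm (extR z) i
    _ = ‖extR z‖ ^ (k + 1) := by simp

lemma norm_arg {k : ℕ} (E : ℕ) (z : Fin k → ℝ) :
    ‖arg E z‖ = (E : ℝ) ^ nu k * PR z ^ (-nu k) * ‖extR z‖ := by
  have h0 : 0 ≤ (E : ℝ) ^ nu k * PR z ^ (-nu k) := by
    have : 0 ≤ PR z := abs_nonneg _
    positivity
  have h1 : arg E z = ((E : ℝ) ^ nu k * PR z ^ (-nu k)) • extR z := by
    funext i
    rfl
  rw [h1, norm_smul, Real.norm_eq_abs, abs_of_nonneg h0]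

lemma one_le_norm_arg {k E : ℕ} (hE : 1 ≤ E) {z : Fin k → ℝ} (hz : 0 < PR z) :
    1 ≤ ‖arg E z‖ := by
  rw [norm_arg]
  have hE1 : (1 : ℝ) ≤ E := by exact_mod_cast hE
  have hnu : 0 < nu k := by unfold nu; positivity
  have h1 : (1 : ℝ) ≤ (E : ℝ) ^ nu k := Real.one_le_rpow hE1 hnu.le
  have h2 : PR z ^ nu k ≤ ‖extR z‖ := by
    have h3 := Real.rpow_le_rpow hz.le (pr_le_pow z) hnu.le
    have h4 : (‖extR z‖ ^ (k + 1)) ^ nu k = ‖extR z‖ := by
      rw [← Real.rpow_natCast, ← Real.rpow_mul (norm_nonneg _)]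
      have h5 : ((k + 1 : ℕ) : ℝ) * nu k = 1 := by
        unfold nu
        push_cast
        field_simp
      rw [h5, Real.rpow_one]
    rwa [h4] at h3
  have h5 : 0 < PR z ^ nu k := Real.rpow_pos_of_pos hz _
  have h6 : 1 ≤ PR z ^ (-nu k) * ‖extR z‖ := by
    rw [Real.rpow_neg hz.le, ← div_eq_inv_mul, one_le_div h5]
    exact h2
  rw [mul_assoc]
  exact one_le_mul_of_one_le_of_one_le h1 h6

theorem pf_LWN1 (h1 : T_NUL) : Pool.Agent.H72.EQQ.T_LWN1 := by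
  intro k E hk hE
  refine measure_mono_null ?_ (h1 k (by omega) 0).1
  rintro z ⟨-, h2⟩
  have h3 : 0 ≤ PR z := abs_nonneg _
  rcases h3.lt_or_eq with h4 | h4
  · exact absurd (one_le_norm_arg hE h4) (not_le.2 h2)
  · exact h4.symm

end Pool.Agent.H30.EQQ
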